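import Pool.Agent.Helper49.NF.Goals

/-!
# Project NF, packet DIH: dihedral groups are nearly free
-/

set_option autoImplicit false

namespace Pool.Agent.Helper60.NF

open Finset
open Pool.Agent.Helper49.NF

/-- the residue of a point -/
def ph {n : ℕ} (i : Fin n) : ZMod n := ((i : ℕ) : ZMod n)

lemma ph_inj {n : ℕ} {i j : Fin n} (h : ph i = ph j) : i = j := by
  unfold ph at h
  rw [ZMod.natCast_eq_natCast_iff'] at h
  rw [Nat.mod_eq_of_lt i.2, Nat.mod_eq_of_lt j.2] at h
  exact Fin.ext h

lemma ph_rot {n : ℕ} (i : Fin n) : ph (finRotate n i) = ph i + 1 := by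
  cases n with
  | zero => exact i.elim0
  | succ m =>
    rw [finRotate_apply]
    unfold ph
    rw [Fin.val_add, ZMod.natCast_mod, Nat.cast_add]
    congr 1
    cases m with
    | zero => exact @Subsingleton.elim (ZMod 1) (inferInstanceAs (Subsingleton (Fin 1))) _ _
    | succ k =>
      rw [Fin.val_one]
      simp

lemma ph_rot_pow {n : ℕ} (k : ℕ) (i : Fin n) : ph ((finRotate n ^ k) i) = ph i + k := by
  induction k with
  | zero => simp
  | succ k ih =>
    rw [pow_succ', Equiv.Perm.mul_apply, ph_rot, ih]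
    push_cast
    ring

lemma ph_rev {n : ℕ} (i : Fin n) : ph (Fin.revPerm i) = -1 - ph i := by
  unfold ph
  rw [Fin.revPerm_apply, Fin.val_rev]
  have h : n - ((i : ℕ) + 1) + ((i : ℕ) + 1) = n := Nat.sub_add_cancel i.2
  have h2 := congrArg (fun t : ℕ => (t : ZMod n)) h
  push_cast at h2
  rw [ZMod.natCast_self] at h2
  linear_combination h2

/-- the two types of elements -/
lemma typ {n : ℕ} {γ : Equiv.Perm (Fin n)}
    (h : γ ∈ Subgroup.closure {finRotate n, (Fin.revPerm : Equiv.Perm (Fin n))}) :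
    ∃ c : ZMod n, (∀ i, ph (γ i) = ph i + c) ∨ ∀ i, ph (γ i) = c - ph i := by
  induction h using Subgroup.closure_induction with
  | mem x hx =>
    rcases hx with hx | hx
    · refine ⟨1, Or.inl fun i => ?_⟩
      rw [hx, ph_rot]
    · refine ⟨-1, Or.inr fun i => ?_⟩
      rw [Set.mem_singleton_iff.1 hx, ph_rev]
  | one => exact ⟨0, Or.inl fun i => by simp⟩
  | mul x y _ _ hx hy =>
    obtain ⟨c, hc | hc⟩ := hx <;> obtain ⟨e, he | he⟩ := hy
    · exact ⟨e + c, Or.inl fun i => by rw [Equiv.Perm.mul_apply, hc, he]; ring⟩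
    · exact ⟨e + c, Or.inr fun i => by rw [Equiv.Perm.mul_apply, hc, he]; ring⟩
    · exact ⟨c - e, Or.inr fun i => by rw [Equiv.Perm.mul_apply, hc, he]; ring⟩
    · exact ⟨c - e, Or.inl fun i => by rw [Equiv.Perm.mul_apply, hc, he]; ring⟩
  | inv x _ hx =>
    obtain ⟨c, hc | hc⟩ := hx
    · refine ⟨-c, Or.inl fun i => ?_⟩
      have := hc (x⁻¹ i)
      rw [show x (x⁻¹ i) = i from x.apply_symm_apply i] at this
      rw [this]
      ring
    · refine ⟨c, Or.inr fun i => ?_⟩
      have := hc (x⁻¹ i)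
      rw [show x (x⁻¹ i) = i from x.apply_symm_apply i] at this
      rw [this]
      ring

/-- an element with a fixed point -/
lemma fixd {n : ℕ} {γ : Equiv.Perm (Fin n)}
    (h : γ ∈ Subgroup.closure {finRotate n, (Fin.revPerm : Equiv.Perm (Fin n))})
    {x : Fin n} (hx : γ x = x) : γ = 1 ∨ ∀ i, ph (γ i) = ph x + ph x - ph i := by
  obtain ⟨c, hc | hc⟩ := typ h
  · left
    have h1 := hc x
    rw [hx] at h1
    have hc0 : c = 0 := by linear_combination -h1
    ext i
    have h2 := hc i
    rw [hc0, add_zero] at h2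
    rw [ph_inj h2]
    rfl
  · right
    intro i
    have h1 := hc x
    rw [hx] at h1
    rw [hc i]
    linear_combination -h1

lemma half {n : ℕ} {i j : Fin n} (hij : i ≠ j) (h : ph i + ph i = ph j + ph j) :
    2 * (i : ℕ) + n = 2 * (j : ℕ) ∨ 2 * (j : ℕ) + n = 2 * (i : ℕ) := by
  have key : ∀ a b : ℕ, a < b → b < n → ((a : ZMod n) + a = b + b) → 2 * a + n = 2 * b := by
    intro a b hab hb he
    have h1 : ((2 * a : ℕ) : ZMod n) = ((2 * b : ℕ) : ZMod n) := by
      push_cast
      linear_combination he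
    have h2 := (ZMod.natCast_eq_natCast_iff _ _ _).1 h1
    have h3 := (Nat.modEq_iff_dvd' (by omega)).1 h2
    obtain ⟨q, hq⟩ := h3
    have hq0 : q ≠ 0 := by
      rintro rfl
      omega
    have hq2 : q < 2 := by
      by_contra h4
      have : n * 2 ≤ n * q := Nat.mul_le_mul_left n (by omega)
      omega
    have hq1 : q = 1 := by omega
    rw [hq1] at hq
    omega
  unfold ph at h
  rcases lt_trichotomy (i : ℕ) (j : ℕ) with h1 | h1 | h1
  · left
    exact key _ _ h1 j.2 h
  · exact absurd (Fin.ext h1) hij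
  · right
    exact key _ _ h1 i.2 h.symm

theorem goal_DIH : Goal_DIH := by
  classical
  intro n hn
  set G := Subgroup.closure {finRotate n, (Fin.revPerm : Equiv.Perm (Fin n))} with hG
  let x0 : Fin n := ⟨0, by omega⟩
  have mem_els : ∀ γ, γ ∈ els G ↔ γ ∈ G := by
    intro γ
    unfold els
    simp
  -- stabilisers are conjugate
  have hst : ∀ x, stc G x = stc G x0 := by
    intro x
    have hrot : finRotate n ∈ G := Subgroup.subset_closure (by simp)
    set g : Equiv.Perm (Fin n) := finRotate n ^ (x : ℕ) with hg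
    have hgG : g ∈ G := G.pow_mem hrot _
    have hg0 : g x0 = x := by
      apply ph_inj
      rw [hg, ph_rot_pow]
      simp [ph, x0]
    have hgi : g⁻¹ x = x0 := by
      rw [← hg0]
      exact g.symm_apply_apply x0
    unfold stc
    refine Finset.card_nbij' (fun γ => g⁻¹ * γ * g) (fun γ => g * γ * g⁻¹) ?_ ?_ ?_ ?_
    · intro γ hγ
      simp only [Finset.coe_filter, Set.mem_ofPred_eq, mem_els] at hγ ⊢
      refine ⟨G.mul_mem (G.mul_mem (G.inv_mem hgG) hγ.1) hgG, ?_⟩
      rw [Equiv.Perm.mul_apply, Equiv.Perm.mul_apply, hg0, hγ.2, hgi]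
    · intro γ hγ
      simp only [Finset.coe_filter, Set.mem_ofPred_eq, mem_els] at hγ ⊢
      refine ⟨G.mul_mem (G.mul_mem hgG hγ.1) (G.inv_mem hgG), ?_⟩
      rw [Equiv.Perm.mul_apply, Equiv.Perm.mul_apply, hgi, hγ.2, hg0]
    · intro γ _
      simp [mul_assoc]
    · intro γ _
      simp [mul_assoc]
  refine ⟨stc G x0, ?_, ?_, ?_, hst, ?_⟩
  · -- at most two elements
    by_contra hlt
    rw [not_le] at hlt
    unfold stc at hlt
    obtain ⟨a, ha, b, hb, c, hc, hab, hac, hbc⟩ := Finset.two_lt_card.1 hlt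
    simp only [Finset.mem_filter, mem_els] at ha hb hc
    have two : ∀ u v : Equiv.Perm (Fin n), (∀ i, ph (u i) = ph x0 + ph x0 - ph i) →
        (∀ i, ph (v i) = ph x0 + ph x0 - ph i) → u = v := by
      intro u v hu hv
      ext i
      rw [ph_inj ((hu i).trans (hv i).symm)]
    rcases fixd ha.1 ha.2 with h1 | h1 <;> rcases fixd hb.1 hb.2 with h2 | h2 <;>
      rcases fixd hc.1 hc.2 with h3 | h3
    · exact hab (h1.trans h2.symm)
    · exact hab (h1.trans h2.symm)
    · exact hac (h1.trans h3.symm)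
    · exact hbc (two _ _ h2 h3)
    · exact hbc (h2.trans h3.symm)
    · exact hac (two _ _ h1 h3)
    · exact hab (two _ _ h1 h2)
    · exact hab (two _ _ h1 h2)
  · omega
  · unfold stc
    rw [Nat.one_le_iff_ne_zero, Finset.card_ne_zero]
    refine ⟨1, ?_⟩
    rw [Finset.mem_filter, mem_els]
    exact ⟨G.one_mem, rfl⟩
  · intro γ hγ hγ1
    by_contra hlt
    rw [not_le] at hlt
    unfold fx at hlt
    obtain ⟨a, ha, b, hb, c, hc, hab, hac, hbc⟩ := Finset.two_lt_card.1 hlt
    simp only [Finset.mem_filter, Finset.mem_univ, true_and] at ha hb hc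
    have h1 := (fixd hγ ha).resolve_left hγ1
    have hb' := h1 b
    rw [hb] at hb'
    have hc' := h1 c
    rw [hc] at hc'
    have e1 : ph a + ph a = ph b + ph b := by linear_combination -hb'
    have e2 : ph a + ph a = ph c + ph c := by linear_combination -hc'
    have e3 := e1.symm.trans e2
    have k1 := half hab e1
    have k2 := half hac e2
    have k3 := half hbc e3
    have n1 : (a : ℕ) ≠ b := fun h => hab (Fin.ext h)
    have n2 : (a : ℕ) ≠ c := fun h => hac (Fin.ext h)
    have n3 : (b : ℕ) ≠ c := fun h => hbc (Fin.ext h)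
    omega

end Pool.Agent.Helper60.NF
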